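import Pool.Agent.Helper985.CT.Final2

set_option autoImplicit false

open MeasureTheory
open scoped Topology

namespace Pool.Agent.Results.MP_0655ed_mp.Dichotomy

open Pool.Agent.Helper985.CP

/-- Every nonzero neutral choice of occupation numbers contains both species `a` and `b`. -/
def NeedsBoth {S : Type} [Fintype S] (D : Species S) (a b : S) : Prop :=
  ∀ n : S → ℕ, n ≠ 0 → ∑ s, (n s : ℝ) * D.charge s = 0 → 1 ≤ n a ∧ 1 ≤ n b

/-- Insertion of a neutral pair. For every temperature `T > 0` the bound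
`|F_Λ(n',T) - F_Λ(n,T)| ≤ C` holds for all neutral `n` if and only if every nonzero neutral `n`
contains both species; together with the bounds for the ground state energies.
`ℓ = (N/ρ)^{1/3}` is the side of the cube of volume `V = N/ρ`, `N = ∑ₛ nₛ`. -/
theorem result {S : Type} [Fintype S] [DecidableEq S] (D : Species S) (hD : D.Valid)
    (hst : HStable D) (a b : S) (hb : D.charge b = -D.charge a) (ρ : ℝ) (hρ : 0 < ρ) :
    -- temperatures `T > 0`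
    (∀ T : ℝ, 0 < T →
      (∀ ℓ : ℝ, 0 < ℓ → ∀ n : S → ℕ,
        BddAbove (peierls D (fun i : (Σ s, Fin (n s)) => i.1) ℓ T) ∧ 0 < partition D ℓ T n) ∧
      ((∃ C : ℝ, ∀ n : S → ℕ, 1 ≤ ∑ s, (n s : ℝ) → ∑ s, (n s : ℝ) * D.charge s = 0 →
        |freeEnergy D (((∑ s, (n s : ℝ)) / ρ) ^ (1 / 3 : ℝ)) T (addPair n a b) -
          freeEnergy D (((∑ s, (n s : ℝ)) / ρ) ^ (1 / 3 : ℝ)) T n| ≤ C) ↔ NeedsBoth D a b) ∧
      (∃ C : ℝ, ∀ n : S → ℕ, 1 ≤ ∑ s, (n s : ℝ) → (n a = 0 ∨ n b = 0) →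
        freeEnergy D (((∑ s, (n s : ℝ)) / ρ) ^ (1 / 3 : ℝ)) T (addPair n a b) ≤
          freeEnergy D (((∑ s, (n s : ℝ)) / ρ) ^ (1 / 3 : ℝ)) T n -
            T * Real.log (∑ s, (n s : ℝ)) + C) ∧
      (∃ C : ℝ, ∀ n : S → ℕ, 1 ≤ ∑ s, (n s : ℝ) →
        freeEnergy D (((∑ s, (n s : ℝ)) / ρ) ^ (1 / 3 : ℝ)) T (addPair n a b) ≤
          freeEnergy D (((∑ s, (n s : ℝ)) / ρ) ^ (1 / 3 : ℝ)) T n + C) ∧
      (∀ c : ℝ, 0 < c → ∃ C : ℝ, ∀ n : S → ℕ, 1 ≤ ∑ s, (n s : ℝ) →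
        ∑ s, (n s : ℝ) * D.charge s = 0 →
        c * ∑ s, (n s : ℝ) ≤ n a + 1 → c * ∑ s, (n s : ℝ) ≤ n b + 1 →
        |freeEnergy D (((∑ s, (n s : ℝ)) / ρ) ^ (1 / 3 : ℝ)) T (addPair n a b) -
          freeEnergy D (((∑ s, (n s : ℝ)) / ρ) ^ (1 / 3 : ℝ)) T n| ≤ C)) ∧
    -- ground states
    (∀ ℓ : ℝ, 0 < ℓ → ∀ n : S → ℕ,
      (energies D (fun i : (Σ s, Fin (n s)) => i.1) ℓ).Nonempty ∧
      BddBelow (energies D (fun i : (Σ s, Fin (n s)) => i.1) ℓ)) ∧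
    (∃ C : ℝ, ∀ n : S → ℕ, 1 ≤ ∑ s, (n s : ℝ) →
      groundEnergy D (((∑ s, (n s : ℝ)) / ρ) ^ (1 / 3 : ℝ)) (addPair n a b) ≤
        groundEnergy D (((∑ s, (n s : ℝ)) / ρ) ^ (1 / 3 : ℝ)) n + C) ∧
    (∀ c : ℝ, 0 < c → ∃ C : ℝ, ∀ n : S → ℕ, 1 ≤ ∑ s, (n s : ℝ) →
      ∑ s, (n s : ℝ) * D.charge s = 0 →
      c * ∑ s, (n s : ℝ) ≤ n a + 1 → c * ∑ s, (n s : ℝ) ≤ n b + 1 →
      |groundEnergy D (((∑ s, (n s : ℝ)) / ρ) ^ (1 / 3 : ℝ)) (addPair n a b) -
        groundEnergy D (((∑ s, (n s : ℝ)) / ρ) ^ (1 / 3 : ℝ)) n| ≤ C) ∧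
    (NeedsBoth D a b → ∃ C : ℝ, ∀ n : S → ℕ, 1 ≤ ∑ s, (n s : ℝ) →
      ∑ s, (n s : ℝ) * D.charge s = 0 →
      |groundEnergy D (((∑ s, (n s : ℝ)) / ρ) ^ (1 / 3 : ℝ)) (addPair n a b) -
        groundEnergy D (((∑ s, (n s : ℝ)) / ρ) ^ (1 / 3 : ℝ)) n| ≤ C) ∧
    -- two species
    ((∀ s, s = a ∨ s = b) → NeedsBoth D a b) := by
  have hab : a ≠ b := by
    rintro rfl
    have := hD.charge_ne a
    apply this
    linarith
  have key : ∀ c : ℝ, 0 < c → ∃ C : ℝ, ∀ n : S → ℕ, 1 ≤ ∑ s, (n s : ℝ) →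
      ∑ s, (n s : ℝ) * D.charge s = 0 →
      c * ∑ s, (n s : ℝ) ≤ n a + 1 → c * ∑ s, (n s : ℝ) ≤ n b + 1 →
      |groundEnergy D (((∑ s, (n s : ℝ)) / ρ) ^ (1 / 3 : ℝ)) (addPair n a b) -
        groundEnergy D (((∑ s, (n s : ℝ)) / ρ) ^ (1 / 3 : ℝ)) n| ≤ C := by
    intro c hc
    obtain ⟨C1, h1⟩ := upper_final D hD hst a b hb ρ hρ
    obtain ⟨C2, h2⟩ := lower_final D hD hst a b hb ρ hρ c hc
    refine ⟨max C1 C2, fun n hn hneu ha' hb' => ?_⟩
    have k1 := h1 n hn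
    have k2 := h2 n hn hneu ha' hb'
    rw [abs_le]
    have m1 := le_max_left C1 C2
    have m2 := le_max_right C1 C2
    constructor <;> linarith
  have keyT : ∀ T : ℝ, 0 < T → ∀ c : ℝ, 0 < c → ∃ C : ℝ, ∀ n : S → ℕ, 1 ≤ ∑ s, (n s : ℝ) →
      ∑ s, (n s : ℝ) * D.charge s = 0 →
      c * ∑ s, (n s : ℝ) ≤ n a + 1 → c * ∑ s, (n s : ℝ) ≤ n b + 1 →
      |freeEnergy D (((∑ s, (n s : ℝ)) / ρ) ^ (1 / 3 : ℝ)) T (addPair n a b) -
        freeEnergy D (((∑ s, (n s : ℝ)) / ρ) ^ (1 / 3 : ℝ)) T n| ≤ C := by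
    intro T hT c hc
    obtain ⟨C1, h1⟩ := upperT_final D hD hst a b hb ρ T hρ hT
    obtain ⟨C2, h2⟩ := lowerT_final D hD hst a b hb ρ T hρ hT c hc
    refine ⟨max C1 C2, fun n hn hneu ha' hb' => ?_⟩
    have k1 := h1 n hn
    have k2 := h2 n hn hneu ha' hb'
    rw [abs_le]
    have m1 := le_max_left C1 C2
    have m2 := le_max_right C1 C2
    constructor <;> linarith
  refine ⟨fun T hT => ⟨fun ℓ hℓ n => ?_, ⟨fun hbd => ?_, fun hnb => ?_⟩,
    rareT_final D hD hst a b hb ρ T hρ hT, upperT_final D hD hst a b hb ρ T hρ hT, keyT T hT⟩,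
    fun ℓ hℓ n => ?_, upper_final D hD hst a b hb ρ hρ, key, fun hnb => ?_, fun hS => ?_⟩
  · exact ⟨peierls_bdd D hD hst _ ℓ T hℓ hT, (peierls_pos D hD hst _ ℓ T hℓ hT).2⟩
  · obtain ⟨C, hC⟩ := hbd
    obtain ⟨C', hC'⟩ := rareT_final D hD hst a b hb ρ T hρ hT
    intro m hm0 hmneu
    by_contra hcon
    have hz : m a = 0 ∨ m b = 0 := by
      by_contra h
      push Not at h
      exact hcon ⟨Nat.one_le_iff_ne_zero.2 h.1, Nat.one_le_iff_ne_zero.2 h.2⟩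
    have hM : 1 ≤ ∑ s, (m s : ℝ) := by
      obtain ⟨s, hs⟩ : ∃ s, m s ≠ 0 := by
        by_contra h
        push Not at h
        exact hm0 (funext h)
      have h1 : (1 : ℝ) ≤ m s := by exact_mod_cast Nat.one_le_iff_ne_zero.2 hs
      exact h1.trans (Finset.single_le_sum (f := fun s => (m s : ℝ))
        (fun i _ => Nat.cast_nonneg _) (Finset.mem_univ s))
    obtain ⟨k, hk⟩ := exists_nat_gt (Real.exp ((C + C') / T))
    have hk0 : (0 : ℝ) < k := (Real.exp_pos _).trans hk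
    have hk1 : (1 : ℝ) ≤ k := by
      have : 0 < k := by exact_mod_cast hk0
      exact_mod_cast this
    have hsum : ∑ s, (((k • m) s : ℕ) : ℝ) = k * ∑ s, (m s : ℝ) := by
      rw [Finset.mul_sum]
      refine Finset.sum_congr rfl fun s _ => ?_
      simp
    have hneu : ∑ s, (((k • m) s : ℕ) : ℝ) * D.charge s = 0 := by
      have : ∑ s, (((k • m) s : ℕ) : ℝ) * D.charge s = k * ∑ s, (m s : ℝ) * D.charge s := by
        rw [Finset.mul_sum]
        refine Finset.sum_congr rfl fun s _ => ?_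
        simp
        ring
      rw [this, hmneu, mul_zero]
    have hN : 1 ≤ ∑ s, (((k • m) s : ℕ) : ℝ) := by
      rw [hsum]; nlinarith
    have hz' : (k • m) a = 0 ∨ (k • m) b = 0 := by
      rcases hz with h | h
      · left; simp [h]
      · right; simp [h]
    have e1 := hC (k • m) hN hneu
    have e2 := hC' (k • m) hN hz'
    have e3 := (abs_le.1 e1).1
    have e4 : Real.log k ≤ Real.log (∑ s, (((k • m) s : ℕ) : ℝ)) := by
      apply Real.log_le_log hk0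
      rw [hsum]; nlinarith
    have e5 : (C + C') / T < Real.log k := (Real.lt_log_iff_exp_lt hk0).2 hk
    have e6 : (C + C') < T * Real.log k := by
      rw [div_lt_iff₀ hT] at e5
      linarith
    have e7 : T * Real.log k ≤ T * Real.log (∑ s, (((k • m) s : ℕ) : ℝ)) :=
      mul_le_mul_of_nonneg_left e4 hT.le
    linarith
  · obtain ⟨c, hc, h⟩ := neutral_dickson D.charge a b hnb
    obtain ⟨C, hC⟩ := keyT T hT c hc
    exact ⟨C, fun n hn hneu => hC n hn hneu (by linarith [(h n hneu).1])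
      (by linarith [(h n hneu).2])⟩
  · have h := energies_basic D hD hst (fun i : (Σ s, Fin (n s)) => i.1) ℓ hℓ
    exact ⟨h.1, h.2.1⟩
  · obtain ⟨c, hc, h⟩ := neutral_dickson D.charge a b hnb
    obtain ⟨C, hC⟩ := key c hc
    exact ⟨C, fun n hn hneu => hC n hn hneu (by linarith [(h n hneu).1])
      (by linarith [(h n hneu).2])⟩
  · intro n hn0 hneu
    have huniv : (Finset.univ : Finset S) = {a, b} := by
      ext s
      simpa using hS s
    have e2 : (n a : ℝ) * D.charge a + n b * D.charge b = 0 := by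
      rw [huniv, Finset.sum_pair hab] at hneu
      exact hneu
    have e3 : (n a : ℝ) = n b := by
      rw [hb] at e2
      have h3 : ((n a : ℝ) - n b) * D.charge a = 0 := by linarith
      rcases mul_eq_zero.mp h3 with h4 | h4
      · linarith
      · exact absurd h4 (hD.charge_ne a)
    have e4 : n a = n b := by exact_mod_cast e3
    have e5 : n a ≠ 0 := by
      intro h
      apply hn0
      funext s
      rcases hS s with h' | h'
      · rw [h', h]; rfl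
      · rw [h', ← e4, h]; rfl
    have e6 := Nat.one_le_iff_ne_zero.2 e5
    exact ⟨e6, e4 ▸ e6⟩

end Pool.Agent.Results.MP_0655ed_mp.Dichotomy
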