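import Pool.Agent.Helper985.CP.Final

set_option autoImplicit false

open MeasureTheory
open scoped Topology

namespace Pool.Agent.Results.MP_0655ed_mp.InsertionEnergy

open Pool.Agent.Helper985.CP

/-- Insertion energy of a neutral pair, ground states. `ℓ = (N/ρ)^{1/3}` is the side of the cube of
volume `V = N/ρ`, `N = ∑ₛ nₛ`. -/
theorem result {S : Type} [Fintype S] [DecidableEq S] (D : Species S) (hD : D.Valid)
    (hst : HStable D) (a b : S) (hb : D.charge b = -D.charge a) (ρ : ℝ) (hρ : 0 < ρ) :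
    (∀ ℓ : ℝ, 0 < ℓ → ∀ n : S → ℕ,
      (energies D (fun i : (Σ s, Fin (n s)) => i.1) ℓ).Nonempty ∧
      BddBelow (energies D (fun i : (Σ s, Fin (n s)) => i.1) ℓ)) ∧
    (∃ C : ℝ, ∀ n : S → ℕ, 1 ≤ ∑ s, (n s : ℝ) →
      groundEnergy D (((∑ s, (n s : ℝ)) / ρ) ^ (1 / 3 : ℝ)) (addPair n a b) ≤
        groundEnergy D (((∑ s, (n s : ℝ)) / ρ) ^ (1 / 3 : ℝ)) n + C) ∧
    (∀ c : ℝ, 0 < c → ∃ C : ℝ, ∀ n : S → ℕ, 1 ≤ ∑ s, (n s : ℝ) →
      ∑ s, (n s : ℝ) * D.charge s = 0 →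
      c * ∑ s, (n s : ℝ) ≤ n a + 1 → c * ∑ s, (n s : ℝ) ≤ n b + 1 →
      |groundEnergy D (((∑ s, (n s : ℝ)) / ρ) ^ (1 / 3 : ℝ)) (addPair n a b) -
        groundEnergy D (((∑ s, (n s : ℝ)) / ρ) ^ (1 / 3 : ℝ)) n| ≤ C) ∧
    ((∀ s, s = a ∨ s = b) → ∃ C : ℝ, ∀ n : S → ℕ, 1 ≤ ∑ s, (n s : ℝ) →
      ∑ s, (n s : ℝ) * D.charge s = 0 →
      |groundEnergy D (((∑ s, (n s : ℝ)) / ρ) ^ (1 / 3 : ℝ)) (addPair n a b) -
        groundEnergy D (((∑ s, (n s : ℝ)) / ρ) ^ (1 / 3 : ℝ)) n| ≤ C) := by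
  have hab : a ≠ b := by
    rintro rfl
    have := hD.charge_ne a
    apply this
    linarith
  have key : ∀ c : ℝ, 0 < c → ∃ C : ℝ, ∀ n : S → ℕ, 1 ≤ ∑ s, (n s : ℝ) →
      ∑ s, (n s : ℝ) * D.charge s = 0 →
      c * ∑ s, (n s : ℝ) ≤ n a + 1 → c * ∑ s, (n s : ℝ) ≤ n b + 1 →
      |groundEnergy D (((∑ s, (n s : ℝ)) / ρ) ^ (1 / 3 : ℝ)) (addPair n a b) -
        groundEnergy D (((∑ s, (n s : ℝ)) / ρ) ^ (1 / 3 : ℝ)) n| ≤ C := by
    intro c hc
    obtain ⟨C1, h1⟩ := upper_final D hD hst a b hb ρ hρ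
    obtain ⟨C2, h2⟩ := lower_final D hD hst a b hb ρ hρ c hc
    refine ⟨max C1 C2, fun n hn hneu ha' hb' => ?_⟩
    have k1 := h1 n hn
    have k2 := h2 n hn hneu ha' hb'
    rw [abs_le]
    have m1 := le_max_left C1 C2
    have m2 := le_max_right C1 C2
    constructor <;> linarith
  refine ⟨fun ℓ hℓ n => ?_, upper_final D hD hst a b hb ρ hρ, key, fun hS => ?_⟩
  · have h := energies_basic D hD hst (fun i : (Σ s, Fin (n s)) => i.1) ℓ hℓ
    exact ⟨h.1, h.2.1⟩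
  · obtain ⟨C, h⟩ := key (1 / 2) (by norm_num)
    refine ⟨C, fun n hn hneu => ?_⟩
    have huniv : (Finset.univ : Finset S) = {a, b} := by
      ext s
      simpa using hS s
    have e1 : ∑ s, (n s : ℝ) = n a + n b := by
      rw [huniv, Finset.sum_pair hab]
    have e2 : (n a : ℝ) * D.charge a + n b * D.charge b = 0 := by
      rw [huniv, Finset.sum_pair hab] at hneu
      exact hneu
    have e3 : (n a : ℝ) = n b := by
      rw [hb] at e2
      have h3 : ((n a : ℝ) - n b) * D.charge a = 0 := by linarith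
      rcases mul_eq_zero.mp h3 with h4 | h4
      · linarith
      · exact absurd h4 (hD.charge_ne a)
    exact h n hn hneu (by rw [e1]; linarith) (by rw [e1]; linarith)

end Pool.Agent.Results.MP_0655ed_mp.InsertionEnergy
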